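import Mathlib

/-!
Sumset calculus for homomorphisms (helper file for `MP_dd2a7c_co.BoundedTorsionExtensions`).
-/

set_option autoImplicit false

namespace Pool.Agent.R424.EX

open Finset
open scoped Pointwise

section

variable {Γ : Type*} [AddCommGroup Γ] [DecidableEq Γ]

theorem one_le {A : Finset Γ} (hA : A.Nonempty) {M : ℝ}
    (hM : ((A + A).card : ℝ) ≤ M * A.card) : 1 ≤ M := by
  have hA0 : (0 : ℝ) < A.card := by exact_mod_cast hA.card_pos
  have h1 : (A.card : ℝ) ≤ (A + A).card := by
    exact_mod_cast Finset.card_le_card_add_right hA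
  nlinarith

/-- Plünnecke-Ruzsa -/
theorem pr {A : Finset Γ} (hA : A.Nonempty) {M : ℝ} (hM : ((A + A).card : ℝ) ≤ M * A.card)
    (i j : ℕ) : ((i • A - j • A).card : ℝ) ≤ M ^ (i + j) * A.card := by
  have hA0 : (0 : ℝ) < A.card := by exact_mod_cast hA.card_pos
  have h := Finset.pluennecke_ruzsa_inequality_nsmul_sub_nsmul_add hA A i j
  have h' : ((i • A - j • A).card : ℝ) ≤ (((A + A).card : ℝ) / A.card) ^ (i + j) * A.card := by
    have h2 := (NNRat.cast_le (K := ℝ)).2 h
    push_cast at h2
    exact h2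
  refine h'.trans ?_
  gcongr
  rw [div_le_iff₀ hA0]
  exact hM

/-- sums of elements with signs are in `i A - j A` -/
theorem mem_pr {A : Finset Γ} {i j : ℕ} {x y : Γ} (hx : x ∈ i • A) (hy : y ∈ j • A) :
    x - y ∈ i • A - j • A := Finset.sub_mem_sub hx hy

theorem mem_one {A : Finset Γ} {a : Γ} (ha : a ∈ A) : a ∈ 1 • A := by rwa [one_nsmul]

theorem mem_add_nsmul {A : Finset Γ} {i j : ℕ} {x y : Γ} (hx : x ∈ i • A) (hy : y ∈ j • A) :
    x + y ∈ (i + j) • A := by
  rw [add_nsmul]
  exact Finset.add_mem_add hx hy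

/-- The set of all `x + y + … - z`, for a set which is covered by translates of `i A - j A`. -/
theorem card_cov {A U : Finset Γ} (hA : A.Nonempty) {M : ℝ}
    (hM : ((A + A).card : ℝ) ≤ M * A.card) (F : Finset Γ) (i j : ℕ)
    (h : U ⊆ F + (i • A - j • A)) : (U.card : ℝ) ≤ F.card * (M ^ (i + j) * A.card) := by
  have h1 : (U.card : ℝ) ≤ (F.card * (i • A - j • A).card : ℕ) := by
    exact_mod_cast (Finset.card_le_card h).trans Finset.card_add_le
  rw [Nat.cast_mul] at h1
  exact h1.trans (mul_le_mul_of_nonneg_left (pr hA hM i j) (Nat.cast_nonneg _))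

/-- If `f` is constant on `Q` then `|f(P)| |Q| ≤ |P + Q|`. -/
theorem fib {Δ : Type*} [AddCommGroup Δ] [DecidableEq Δ] (f : Γ →+ Δ) (P Q : Finset Γ) (c : Δ)
    (hQ : ∀ q ∈ Q, f q = c) : (P.image f).card * Q.card ≤ (P + Q).card := by
  have h0 : ∀ z : Δ, ∃ p : Γ, z ∈ P.image f → p ∈ P ∧ f p = z := by
    intro z
    by_cases hz : z ∈ P.image f
    · obtain ⟨p, hp, h⟩ := Finset.mem_image.1 hz
      exact ⟨p, fun _ => ⟨hp, h⟩⟩
    · exact ⟨0, fun h => absurd h hz⟩
  choose r hr using h0
  rw [← Finset.card_product]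
  refine Finset.card_le_card_of_injOn (fun p => r p.1 + p.2) ?_ ?_
  · rintro ⟨z, q⟩ h
    rw [Finset.mem_coe, Finset.mem_product] at h
    rw [Finset.mem_coe]
    exact Finset.add_mem_add (hr z h.1).1 h.2
  · rintro ⟨z, q⟩ h ⟨z', q'⟩ h' e
    rw [Finset.mem_coe, Finset.mem_product] at h h'
    simp only at h h' e
    have e1 : f (r z + q) = f (r z' + q') := by rw [e]
    rw [map_add, map_add, (hr z h.1).2, (hr z' h'.1).2, hQ q h.2, hQ q' h'.2] at e1
    have e2 : z = z' := add_right_cancel e1
    subst e2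
    rw [add_left_cancel e]

omit [DecidableEq Γ] in
/-- The fibres of `f` on `A` are translates of subsets of `S`. -/
theorem card_le_fib {Δ : Type*} [DecidableEq Δ] (f : Γ → Δ) (A S : Finset Γ)
    (hS : ∀ a ∈ A, ∀ b ∈ A, f a = f b → a - b ∈ S) :
    A.card ≤ (A.image f).card * S.card := by
  rw [mul_comm]
  refine Finset.card_le_mul_card_image A S.card fun z hz => ?_
  obtain ⟨b, hb, rfl⟩ := Finset.mem_image.1 hz
  refine Finset.card_le_card_of_injOn (fun a => a - b) ?_ ?_
  · intro a ha
    rw [Finset.mem_coe, Finset.mem_filter] at ha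
    rw [Finset.mem_coe]
    exact hS a ha.1 b hb ha.2
  · intro a _ a' _ h
    exact sub_left_injective h

/-- popular sums -/
theorem pop {P Q : Finset Γ} (hP : P.Nonempty) (hQ : Q.Nonempty) : ∃ s : Γ,
    P.card * Q.card ≤ (P + Q).card * (P.filter fun p => s - p ∈ Q).card := by
  by_contra hcon
  push Not at hcon
  have h1 : P.card * Q.card = ∑ s ∈ P + Q, (P.filter fun p => s - p ∈ Q).card := by
    have h2 : ∀ s ∈ P + Q, (P.filter fun p => s - p ∈ Q).card =
        ((P ×ˢ Q).filter fun x => x.1 + x.2 = s).card := by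
      intro s _
      refine Finset.card_bij (fun p _ => (p, s - p)) ?_ ?_ ?_
      · intro p hp
        rw [Finset.mem_filter] at hp ⊢
        exact ⟨Finset.mk_mem_product hp.1 hp.2, by simp⟩
      · intro p _ p' _ h
        exact congrArg Prod.fst h
      · rintro ⟨p, q⟩ h
        rw [Finset.mem_filter, Finset.mem_product] at h
        simp only at h
        have e : s - p = q := by rw [← h.2]; abel
        refine ⟨p, ?_, ?_⟩
        · rw [Finset.mem_filter, e]
          exact h.1
        · rw [e]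
    rw [Finset.sum_congr rfl h2, ← Finset.card_product]
    exact Finset.card_eq_sum_card_fiberwise (fun x hx => by
      rw [Finset.mem_coe, Finset.mem_product] at hx
      exact Finset.mem_coe.2 (Finset.add_mem_add hx.1 hx.2))
  have hne : (P + Q).Nonempty := hP.add hQ
  have h3 : ∑ s ∈ P + Q, (P + Q).card * (P.filter fun p => s - p ∈ Q).card <
      ∑ _s ∈ P + Q, P.card * Q.card := Finset.sum_lt_sum_of_nonempty hne fun s _ => hcon s
  rw [← Finset.mul_sum, ← h1, Finset.sum_const, smul_eq_mul] at h3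
  exact lt_irrefl _ h3

/-- covering by differences -/
theorem cover {P Q : Finset Γ} (hQ : Q.Nonempty) {K : ℝ} (h : ((P + Q).card : ℝ) ≤ K * Q.card) :
    ∃ F : Finset Γ, F ⊆ P ∧ (F.card : ℝ) ≤ K ∧ ∀ p ∈ P, ∃ x ∈ F, ∃ y ∈ Q, ∃ z ∈ Q,
      p = x + (y - z) := by
  obtain ⟨F, hFP, hF, hcov⟩ := Finset.ruzsa_covering_add hQ h
  refine ⟨F, hFP, hF, fun p hp => ?_⟩
  obtain ⟨x, hx, u, hu, rfl⟩ := Finset.mem_add.1 (hcov hp)
  obtain ⟨y, hy, z, hz, rfl⟩ := Finset.mem_sub.1 hu
  exact ⟨x, hx, y, hy, z, hz, rfl⟩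

/-- The dilate `m · A` is covered by `M ^ (6 (⌊log₂ m⌋ + 1))` translates of `A - A`. -/
theorem horner {A : Finset Γ} (hA : A.Nonempty) {M : ℝ} (hM : ((A + A).card : ℝ) ≤ M * A.card)
    (m : ℕ) : ∃ Y : Finset Γ, (Y.card : ℝ) ≤ M ^ (6 * (Nat.log 2 m + 1)) ∧
      ∀ a ∈ A, ∃ y ∈ Y, ∃ b ∈ A, ∃ c ∈ A, m • a = y + (b - c) := by
  have hM1 := one_le hA hM
  obtain ⟨a₀, ha₀⟩ := hA
  have hA : A.Nonempty := ⟨a₀, ha₀⟩
  -- the covering of `3 A - 2 A`
  have h32 : (((3 • A - 2 • A) + A).card : ℝ) ≤ M ^ 6 * A.card := by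
    have e : (3 • A - 2 • A) + A ⊆ 4 • A - 2 • A := by
      intro x hx
      obtain ⟨u, hu, a, ha, rfl⟩ := Finset.mem_add.1 hx
      obtain ⟨p, hp, q, hq, rfl⟩ := Finset.mem_sub.1 hu
      have e1 : p - q + a = (p + a) - q := by abel
      rw [e1]
      exact mem_pr (mem_add_nsmul (i := 3) (j := 1) hp (mem_one ha)) hq
    have h1 : ((((3 • A - 2 • A) + A).card : ℕ) : ℝ) ≤ ((4 • A - 2 • A).card : ℕ) := by
      exact_mod_cast Finset.card_le_card e
    exact h1.trans (pr hA hM 4 2)
  obtain ⟨Z, -, hZ, hcov⟩ := cover hA h32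
  induction m using Nat.strong_induction_on with
  | _ m ih =>
    rcases Nat.lt_or_ge m 2 with hm | hm
    · have hpow : (1 : ℝ) ≤ M ^ (6 * (Nat.log 2 m + 1)) := one_le_pow₀ hM1
      interval_cases m
      · exact ⟨{0}, by simpa using hpow, fun a ha => ⟨0, Finset.mem_singleton_self _, a, ha, a, ha,
          by simp⟩⟩
      · exact ⟨{a₀}, by simpa using hpow, fun a ha => ⟨a₀, Finset.mem_singleton_self _, a, ha, a₀,
          ha₀, by rw [one_smul]; abel⟩⟩
    · obtain ⟨Y, hY, hcovY⟩ := ih (m / 2) (Nat.div_lt_self (by omega) (by norm_num))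
      have hlog : Nat.log 2 m = Nat.log 2 (m / 2) + 1 := Nat.log_of_one_lt_of_le (by norm_num) hm
      rcases Nat.mod_two_eq_zero_or_one m with h0 | h1
      · refine ⟨Y.image (fun y => 2 • y) + Z.image (fun z => z - a₀), ?_, fun a ha => ?_⟩
        · have h2 : ((Y.image (fun y => 2 • y) + Z.image (fun z => z - a₀)).card : ℝ) ≤
              (Y.card : ℝ) * Z.card := by
            have h3 := (Finset.card_add_le (s := Y.image (fun y => 2 • y))
              (t := Z.image (fun z => z - a₀))).trans
              (Nat.mul_le_mul Finset.card_image_le Finset.card_image_le)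
            exact_mod_cast h3
          refine h2.trans ((mul_le_mul hY hZ (Nat.cast_nonneg _) (by positivity)).trans ?_)
          rw [← pow_add, hlog]
          exact pow_le_pow_right₀ hM1 (by omega)
        · obtain ⟨y, hy, b, hb, c, hc, e⟩ := hcovY a ha
          have hmem : a₀ + b + b - (c + c) ∈ 3 • A - 2 • A :=
            mem_pr (mem_add_nsmul (i := 2) (j := 1) (mem_add_nsmul (i := 1) (j := 1)
              (mem_one ha₀) (mem_one hb)) (mem_one hb))
              (mem_add_nsmul (i := 1) (j := 1) (mem_one hc) (mem_one hc))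
          obtain ⟨z, hz, b', hb', c', hc', e'⟩ := hcov _ hmem
          refine ⟨2 • y + (z - a₀), Finset.add_mem_add (Finset.mem_image_of_mem _ hy)
            (Finset.mem_image_of_mem _ hz), b', hb', c', hc', ?_⟩
          have e2 : m • a = 2 • ((m / 2) • a) := by
            rw [← mul_smul]
            congr 1
            omega
          rw [e2, e]
          have e3 : 2 • (y + (b - c)) = 2 • y + ((a₀ + b + b - (c + c)) - a₀) := by
            rw [two_smul, two_smul]
            abel
          rw [e3, e']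
          abel
      · refine ⟨Y.image (fun y => 2 • y) + Z, ?_, fun a ha => ?_⟩
        · have h2 : ((Y.image (fun y => 2 • y) + Z).card : ℝ) ≤
              (Y.card : ℝ) * Z.card := by
            have h3 := (Finset.card_add_le (s := Y.image (fun y => 2 • y)) (t := Z)).trans
              (Nat.mul_le_mul Finset.card_image_le le_rfl)
            exact_mod_cast h3
          refine h2.trans ((mul_le_mul hY hZ (Nat.cast_nonneg _) (by positivity)).trans ?_)
          rw [← pow_add, hlog]
          exact pow_le_pow_right₀ hM1 (by omega)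
        · obtain ⟨y, hy, b, hb, c, hc, e⟩ := hcovY a ha
          have hmem : a + b + b - (c + c) ∈ 3 • A - 2 • A :=
            mem_pr (mem_add_nsmul (i := 2) (j := 1) (mem_add_nsmul (i := 1) (j := 1)
              (mem_one ha) (mem_one hb)) (mem_one hb))
              (mem_add_nsmul (i := 1) (j := 1) (mem_one hc) (mem_one hc))
          obtain ⟨z, hz, b', hb', c', hc', e'⟩ := hcov _ hmem
          refine ⟨2 • y + z, Finset.add_mem_add (Finset.mem_image_of_mem _ hy) hz, b', hb', c',
            hc', ?_⟩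
          have e2 : m • a = 2 • ((m / 2) • a) + a := by
            rw [← mul_smul]
            nth_rewrite 3 [← one_smul ℕ a]
            rw [← add_smul]
            congr 1
            omega
          rw [e2, e]
          have e3 : 2 • (y + (b - c)) + a = 2 • y + (a + b + b - (c + c)) := by
            rw [two_smul, two_smul]
            abel
          rw [e3, e']
          abel

end

end Pool.Agent.R424.EX
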