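import Pool.Agent.H24.Lib.R_seed8.R424.EX.Core

/-!
The general case: a finite subgroup in the quotient (helper file for
`MP_dd2a7c_co.BoundedTorsionExtensions`).
-/

set_option autoImplicit false

namespace Pool.Agent.R424.EX

open Finset
open scoped Pointwise

universe u

/-- **Reduction to the core theorem.** -/
theorem reduction {m E : ℕ} (hT : TorPFR.{u} m E) {Γ : Type u} {Γ' Ξ : Type*}
    [AddCommGroup Γ] [DecidableEq Γ] [AddCommGroup Γ'] [DecidableEq Γ'] [AddCommGroup Ξ]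
    [DecidableEq Ξ] (f : Γ →+ Γ') (hf : ∀ x, f x = 0 → m • x = 0)
    (hΞ : ∀ x : Ξ, m • x = 0 → x = 0)
    {A : Finset Γ} (hA : A.Nonempty) {M : ℝ} (hM : ((A + A).card : ℝ) ≤ M * A.card)
    {X : Finset Ξ} (hX : X.Nonempty) (hXX : ((X + X).card : ℝ) ≤ M * X.card) (ψ : Ξ →+ Γ)
    (g : Γ) (H : AddSubgroup Γ') [Finite H] (hH : ∀ h ∈ H, ∃ x, f x = h)
    (hsize : (X.card : ℝ) * Nat.card H ≤ M * (A.image f).card)
    (hmeet : ((A.image f).card : ℝ) ≤
      M * ({b : Γ' | b ∈ A.image f ∧ ∃ x ∈ X, ∃ h ∈ H, b = f g + f (ψ x) + h}.ncard : ℝ)) :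
    ∃ (V : AddSubgroup Γ) (g' : Γ), Finite V ∧
      (X.card : ℝ) * Nat.card V ≤
        (M ^ (12 * (Nat.log 2 m + 1) + 8)) ^ (12 * (Nat.log 2 m + 1) + 18) *
        (2 * (M ^ (12 * (Nat.log 2 m + 1) + 8)) ^ 5) ^ (2 * E) * A.card ∧
      (A.card : ℝ) ≤ (M ^ (12 * (Nat.log 2 m + 1) + 8)) ^ (12 * (Nat.log 2 m + 1) + 18) *
        (2 * (M ^ (12 * (Nat.log 2 m + 1) + 8)) ^ 5) ^ (2 * E) *
        ({a : Γ | a ∈ A ∧ ∃ x ∈ X, ∃ v ∈ V, a = g' + (-(m • ψ x)) + v}.ncard : ℝ) := by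
  classical
  have hM1 := one_le hA hM
  have hM0 : 0 < M := by linarith
  have hA0 : (0 : ℝ) < A.card := by exact_mod_cast hA.card_pos
  set B := A.image f with hB
  have hB0 : (0 : ℝ) < B.card := by exact_mod_cast (hA.image f).card_pos
  have hX0 : (0 : ℝ) < X.card := by exact_mod_cast hX.card_pos
  have hHpos : (0 : ℝ) < Nat.card H := by exact_mod_cast Nat.card_pos
  obtain ⟨Y, hY, hcovY⟩ := horner hA hM m
  obtain ⟨ℓ, hℓ⟩ : ∃ ℓ : ℕ, ℓ = Nat.log 2 m + 1 := ⟨_, rfl⟩
  have hℓ1 : 1 ≤ ℓ := by omega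
  rw [← hℓ] at hY ⊢
  -- the large part of `B`
  set B' := B.filter (fun b => ∃ x ∈ X, ∃ h ∈ fs H, b = f g + f (ψ x) + h) with hB'
  have hmeet' : (B.card : ℝ) ≤ M * B'.card := by
    have h1 : {b : Γ' | b ∈ B ∧ ∃ x ∈ X, ∃ h ∈ H, b = f g + f (ψ x) + h} = (B' : Set Γ') := by
      ext b
      rw [hB', Finset.coe_filter]
      simp only [mem_fs]
    rw [h1, Set.ncard_coe_finset] at hmeet
    exact hmeet
  -- a popular coset of `H`
  obtain ⟨x₀, hx₀, hpop⟩ : ∃ x ∈ X,
      B'.card ≤ X.card * (B.filter fun b => b - (f g + f (ψ x)) ∈ fs H).card := by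
    by_contra hcon
    push Not at hcon
    have h2 : B' ⊆ X.biUnion (fun x => B.filter fun b => b - (f g + f (ψ x)) ∈ fs H) := by
      intro b hb
      obtain ⟨hb1, x, hx, h, hh, e⟩ := Finset.mem_filter.1 hb
      refine Finset.mem_biUnion.2 ⟨x, hx, Finset.mem_filter.2 ⟨hb1, ?_⟩⟩
      rw [e, add_sub_cancel_left]
      exact hh
    have h3 := (Finset.card_le_card h2).trans Finset.card_biUnion_le
    have h4 : X.card * ∑ x ∈ X, (B.filter fun b => b - (f g + f (ψ x)) ∈ fs H).card <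
        X.card * B'.card := by
      rw [Finset.mul_sum]
      calc ∑ x ∈ X, X.card * (B.filter fun b => b - (f g + f (ψ x)) ∈ fs H).card <
            ∑ _x ∈ X, B'.card := Finset.sum_lt_sum_of_nonempty hX hcon
        _ = X.card * B'.card := by rw [Finset.sum_const, smul_eq_mul]
    have h5 := Nat.mul_le_mul_left X.card h3
    omega
  set D := B.filter (fun b => b - (f g + f (ψ x₀)) ∈ fs H) with hD
  have hHD : (Nat.card H : ℝ) ≤ M ^ 2 * D.card := by
    have h1 : (X.card : ℝ) * Nat.card H ≤ X.card * (M ^ 2 * D.card) := by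
      calc (X.card : ℝ) * Nat.card H ≤ M * B.card := hsize
        _ ≤ M * (M * B'.card) := by gcongr
        _ ≤ M * (M * (X.card * D.card)) := by
          have : (B'.card : ℝ) ≤ X.card * D.card := by exact_mod_cast hpop
          gcongr
        _ = X.card * (M ^ 2 * D.card) := by ring
    exact le_of_mul_le_mul_left h1 hX0
  have hDne : D.Nonempty := by
    rw [← Finset.card_pos]
    by_contra hcon
    have h0 : D.card = 0 := by omega
    rw [h0, Nat.cast_zero, mul_zero] at hHD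
    linarith
  have hHDsum : ((fs H + D).card : ℝ) ≤ M ^ 2 * D.card := by
    have h2 : (fs H + D).card ≤ Nat.card H := by
      rw [← card_fs]
      refine Finset.card_le_card_of_injOn (fun x => x - (f g + f (ψ x₀))) ?_
        sub_left_injective.injOn
      intro x hx
      obtain ⟨v, hv, d, hd, rfl⟩ := Finset.mem_add.1 (Finset.mem_coe.1 hx)
      rw [Finset.mem_coe]
      have e : v + d - (f g + f (ψ x₀)) = v + (d - (f g + f (ψ x₀))) := by abel
      show v + d - (f g + f (ψ x₀)) ∈ fs H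
      rw [e, mem_fs]
      exact H.add_mem ((mem_fs H v).1 hv) ((mem_fs H _).1 (Finset.mem_filter.1 hd).2)
    exact (by exact_mod_cast h2 : ((fs H + D).card : ℝ) ≤ Nat.card H).trans hHD
  obtain ⟨F, hFH, hF, hcovF⟩ := cover hDne hHDsum
  have hcovH : ∀ h ∈ H, ∃ x ∈ F, ∃ a ∈ A, ∃ b ∈ A, h = x + (f a - f b) := by
    intro h hh
    obtain ⟨x, hx, y, hy, z, hz, e⟩ := hcovF h ((mem_fs H h).2 hh)
    obtain ⟨a, ha, rfl⟩ := Finset.mem_image.1 (Finset.mem_filter.1 hy).1
    obtain ⟨b, hb, rfl⟩ := Finset.mem_image.1 (Finset.mem_filter.1 hz).1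
    exact ⟨x, hx, a, ha, b, hb, e⟩
  -- lifts of the elements of `H`
  have hr0 : ∀ h : Γ', ∃ x : Γ, h ∈ H → f x = h := by
    intro h
    by_cases hh : h ∈ H
    · obtain ⟨x, hx⟩ := hH h hh
      exact ⟨x, fun _ => hx⟩
    · exact ⟨0, fun h' => absurd h' hh⟩
  choose r hr using hr0
  -- the subgroup `m W`
  set W : AddSubgroup Γ := H.comap f with hW
  set H₁ : AddSubgroup Γ := W.map (nsmulAddMonoidHom m) with hH₁
  have hmemH₁ : ∀ z, z ∈ H₁ ↔ ∃ w, f w ∈ H ∧ m • w = z := by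
    intro z
    constructor
    · rintro ⟨w, hw, rfl⟩
      exact ⟨w, hw, rfl⟩
    · rintro ⟨w, hw, rfl⟩
      exact ⟨w, hw, rfl⟩
  have hsmul : ∀ x y, f x = f y → m • x = m • y := by
    intro x y h
    have h1 := hf (x - y) (by rw [map_sub, h, sub_self])
    rw [smul_sub] at h1
    exact sub_eq_zero.1 h1
  have hH₁fin : Finite H₁ := by
    have h1 : (H₁ : Set Γ) ⊆ (fun h => m • r h) '' (H : Set Γ') := by
      intro z hz
      obtain ⟨w, hw, rfl⟩ := (hmemH₁ z).1 hz
      exact ⟨f w, hw, hsmul _ _ (hr _ hw)⟩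
    exact ((Set.toFinite (H : Set Γ')).image _).subset h1
  have hH₁pos : (0 : ℝ) < Nat.card H₁ := by exact_mod_cast Nat.card_pos
  -- it is covered by translates of `2 A - 2 A`
  set Y₂ := F.image (fun h => m • r h) + (Y - Y) with hY₂
  have hY₂c : (Y₂.card : ℝ) ≤ M ^ (12 * ℓ + 2) := by
    have h1 : Y₂.card ≤ F.card * (Y.card * Y.card) :=
      Finset.card_add_le.trans (Nat.mul_le_mul Finset.card_image_le Finset.card_sub_le)
    have h2 : (Y₂.card : ℝ) ≤ F.card * (Y.card * Y.card) := by exact_mod_cast h1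
    calc (Y₂.card : ℝ) ≤ F.card * (Y.card * Y.card) := h2
      _ ≤ M ^ 2 * (M ^ (6 * ℓ) * M ^ (6 * ℓ)) := by gcongr
      _ = M ^ (12 * ℓ + 2) := by
        rw [← pow_add, ← pow_add]
        congr 1
        ring
  have hcovH₁ : ∀ z ∈ H₁, ∃ y ∈ Y₂, ∃ p ∈ 2 • A, ∃ q ∈ 2 • A, z = y + (p - q) := by
    intro z hz
    obtain ⟨w, hw, rfl⟩ := (hmemH₁ z).1 hz
    obtain ⟨x, hx, a, ha, b, hb, e⟩ := hcovH _ hw
    have hxH : x ∈ H := (mem_fs H x).1 (hFH hx)
    have h1 : m • w = m • (r x + (a - b)) := by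
      apply hsmul
      rw [e, map_add, map_sub, hr x hxH]
    obtain ⟨y, hy, c, hc, d, hd, e1⟩ := hcovY a ha
    obtain ⟨y', hy', c', hc', d', hd', e2⟩ := hcovY b hb
    refine ⟨m • r x + (y - y'), Finset.add_mem_add (Finset.mem_image_of_mem _ hx)
      (Finset.sub_mem_sub hy hy'), c + d',
      mem_add_nsmul (i := 1) (j := 1) (mem_one hc) (mem_one hd'), d + c',
      mem_add_nsmul (i := 1) (j := 1) (mem_one hd) (mem_one hc'), ?_⟩
    rw [h1, smul_add, smul_sub, e1, e2]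
    abel
  -- sums with `H₁`
  have hsumH₁ : ∀ (U : Finset Γ) (i j : ℕ), U ⊆ i • A - j • A →
      ((U + fs H₁).card : ℝ) ≤ M ^ (12 * ℓ + 2) * (M ^ (i + j + 4) * A.card) := by
    intro U i j hU
    have h1 : U + fs H₁ ⊆ Y₂ + ((i + 2) • A - (j + 2) • A) := by
      intro z hz
      obtain ⟨u, hu, h, hh, rfl⟩ := Finset.mem_add.1 hz
      obtain ⟨p, hp, q, hq, rfl⟩ := Finset.mem_sub.1 (hU hu)
      obtain ⟨y, hy, p', hp', q', hq', e⟩ := hcovH₁ h ((mem_fs H₁ h).1 hh)
      refine Finset.mem_add.2 ⟨y, hy, (p + p') - (q + q'),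
        mem_pr (mem_add_nsmul hp hp') (mem_add_nsmul hq hq'), ?_⟩
      rw [e]
      abel
    have h2 := card_cov hA hM Y₂ (i + 2) (j + 2) h1
    have e : i + 2 + (j + 2) = i + j + 4 := by ring
    rw [e] at h2
    exact h2.trans (mul_le_mul_of_nonneg_right hY₂c (by positivity))
  -- the quotient
  set mk : Γ →+ Γ ⧸ H₁ := QuotientAddGroup.mk' H₁ with hmk
  have hmk0 : ∀ x, mk x = 0 ↔ x ∈ H₁ := fun x => QuotientAddGroup.eq_zero_iff x
  set A₁ := A.image mk with hA₁
  have hAA₁ : (A.card : ℝ) ≤ A₁.card * Nat.card H₁ := by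
    have h := card_le_fib mk A (fs H₁) (by
      intro a _ b _ e
      rw [mem_fs, ← hmk0, map_sub, e, sub_self])
    rw [card_fs] at h
    exact_mod_cast h
  have hA₁ne : A₁.Nonempty := hA.image _
  obtain ⟨M₁, hM₁⟩ : ∃ M₁ : ℝ, M₁ = M ^ (12 * ℓ + 8) := ⟨_, rfl⟩
  rw [← hM₁]
  have hM₁1 : 1 ≤ M₁ := by
    rw [hM₁]
    exact one_le_pow₀ hM1
  have hM₁0 : 0 < M₁ := by linarith
  have hMM₁ : ∀ k : ℕ, k ≤ 8 → M ^ k ≤ M₁ := by
    intro k hk
    rw [hM₁]
    exact pow_le_pow_right₀ hM1 (by omega)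
  have hdoub : ((A₁ + A₁).card : ℝ) ≤ M₁ * A₁.card := by
    have h1 := fib mk (A + A) (fs H₁) 0 (fun q hq => (hmk0 q).2 ((mem_fs H₁ q).1 hq))
    rw [card_fs] at h1
    have h2 : (A + A).image mk = A₁ + A₁ := Finset.image_add mk
    rw [h2] at h1
    have h3 := hsumH₁ (A + A) 2 0 (by
      rw [two_nsmul, zero_nsmul, sub_zero])
    have h4 : ((A₁ + A₁).card : ℝ) * Nat.card H₁ ≤ (M₁ * A₁.card) * Nat.card H₁ := by
      calc ((A₁ + A₁).card : ℝ) * Nat.card H₁ ≤ (A + A + fs H₁).card := by exact_mod_cast h1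
        _ ≤ M ^ (12 * ℓ + 2) * (M ^ (2 + 0 + 4) * A.card) := h3
        _ = M₁ * A.card := by
          rw [hM₁, pow_add M (12 * ℓ) 8, pow_add M (12 * ℓ) 2]
          ring
        _ ≤ M₁ * (A₁.card * Nat.card H₁) := by gcongr
        _ = (M₁ * A₁.card) * Nat.card H₁ := by ring
    exact le_of_mul_le_mul_right h4 hH₁pos
  -- the induced homomorphism
  have hH₁W : H₁ ≤ H.comap f := by
    intro z hz
    obtain ⟨w, hw, rfl⟩ := (hmemH₁ z).1 hz
    show f (m • w) ∈ H
    rw [map_nsmul]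
    exact H.nsmul_mem hw m
  set f' : Γ ⧸ H₁ →+ Γ' ⧸ H := QuotientAddGroup.map H₁ H f hH₁W with hf'
  set mk' : Γ' →+ Γ' ⧸ H := QuotientAddGroup.mk' H with hmk'
  have hmk'0 : ∀ x, mk' x = 0 ↔ x ∈ H := fun x => QuotientAddGroup.eq_zero_iff x
  have hff : ∀ x, f' (mk x) = mk' (f x) := fun x => rfl
  have hmksurj : ∀ z, ∃ x, mk x = z := QuotientAddGroup.mk'_surjective H₁
  have hf'0 : ∀ z, f' z = 0 → m • z = 0 := by
    intro z hz
    obtain ⟨x, rfl⟩ := hmksurj z
    rw [hff, hmk'0] at hz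
    rw [← map_nsmul, hmk0, hmemH₁]
    exact ⟨x, hz, rfl⟩
  have himg : A₁.image f' = B.image mk' := by
    rw [hA₁, hB, Finset.image_image, Finset.image_image]
    rfl
  have hBB' : (B.card : ℝ) ≤ (B.image mk').card * Nat.card H := by
    have h := card_le_fib mk' B (fs H) (by
      intro a _ b _ e
      rw [mem_fs, ← hmk'0, map_sub, e, sub_self])
    rw [card_fs] at h
    exact_mod_cast h
  have hsize₁ : (X.card : ℝ) ≤ M₁ * (A₁.image f').card := by
    rw [himg]
    have h1 : (X.card : ℝ) * Nat.card H ≤ (M * (B.image mk').card) * Nat.card H := by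
      calc (X.card : ℝ) * Nat.card H ≤ M * B.card := hsize
        _ ≤ M * ((B.image mk').card * Nat.card H) := by gcongr
        _ = (M * (B.image mk').card) * Nat.card H := by ring
    have h2 := le_of_mul_le_mul_right h1 hHpos
    have h3 := hMM₁ 1 (by norm_num)
    rw [pow_one] at h3
    exact h2.trans (mul_le_mul_of_nonneg_right h3 (Nat.cast_nonneg _))
  -- the doubling of `B`
  have hBBB : ((B + B - B).card : ℝ) ≤ M ^ 5 * B.card := by
    set S := (A - A).filter (fun x => f x = 0) with hS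
    have hSpos : (0 : ℝ) < S.card := by
      obtain ⟨a, ha⟩ := hA
      have : (0 : Γ) ∈ S := by
        rw [hS, Finset.mem_filter]
        exact ⟨Finset.mem_sub.2 ⟨a, ha, a, ha, sub_self a⟩, map_zero f⟩
      exact_mod_cast Finset.card_pos.2 ⟨0, this⟩
    have hfibA : (A.card : ℝ) ≤ B.card * S.card := by
      have h := card_le_fib f A S (by
        intro a ha b hb e
        rw [hS, Finset.mem_filter]
        exact ⟨Finset.sub_mem_sub ha hb, by rw [map_sub, e, sub_self]⟩)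
      exact_mod_cast h
    have h1 := fib f (A + A - A) S 0 (fun q hq => (Finset.mem_filter.1 hq).2)
    have h2 : B + B - B ⊆ (A + A - A).image f := by
      intro z hz
      obtain ⟨p, hp, c, hc, rfl⟩ := Finset.mem_sub.1 hz
      obtain ⟨a, ha, b, hb, rfl⟩ := Finset.mem_add.1 hp
      obtain ⟨a', ha', rfl⟩ := Finset.mem_image.1 ha
      obtain ⟨b', hb', rfl⟩ := Finset.mem_image.1 hb
      obtain ⟨c', hc', rfl⟩ := Finset.mem_image.1 hc
      exact Finset.mem_image.2 ⟨a' + b' - c', Finset.sub_mem_sub (Finset.add_mem_add ha' hb') hc',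
        by rw [map_sub, map_add]⟩
    replace h1 := (Nat.mul_le_mul_right _ (Finset.card_le_card h2)).trans h1
    have h3 : (A + A - A) + S ⊆ {0} + (3 • A - 2 • A) := by
      intro z hz
      obtain ⟨u, hu, s, hs, rfl⟩ := Finset.mem_add.1 hz
      obtain ⟨p, hp, c, hc, rfl⟩ := Finset.mem_sub.1 hu
      obtain ⟨a, ha, b, hb, rfl⟩ := Finset.mem_add.1 hp
      obtain ⟨d, hd, e, he, rfl⟩ := Finset.mem_sub.1 (Finset.mem_filter.1 hs).1
      exact Finset.mem_add.2 ⟨0, Finset.mem_singleton_self _, (a + b + d) - (c + e), mem_pr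
        (mem_add_nsmul (i := 2) (j := 1) (mem_add_nsmul (i := 1) (j := 1) (mem_one ha)
          (mem_one hb)) (mem_one hd))
        (mem_add_nsmul (i := 1) (j := 1) (mem_one hc) (mem_one he)), by abel⟩
    have h4 := card_cov hA hM {0} 3 2 h3
    rw [Finset.card_singleton, Nat.cast_one, one_mul] at h4
    have h5 : ((B + B - B).card : ℝ) * S.card ≤ (M ^ 5 * B.card) * S.card := by
      calc ((B + B - B).card : ℝ) * S.card ≤ ((A + A - A) + S).card := by exact_mod_cast h1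
        _ ≤ M ^ (3 + 2) * A.card := h4
        _ ≤ M ^ (3 + 2) * (B.card * S.card) := by gcongr
        _ = (M ^ 5 * B.card) * S.card := by ring
    exact le_of_mul_le_mul_right h5 hSpos
  have hmeet₁ : ((A₁.image f').card : ℝ) ≤
      M₁ * ((A₁.filter fun a => ∃ x ∈ X, f' a = f' (mk g + (mk.comp ψ) x)).image f').card := by
    rw [himg]
    set B₁ := (A₁.filter fun a => ∃ x ∈ X, f' a = f' (mk g + (mk.comp ψ) x)).image f' with hB₁
    have h1 : ((B.image mk').card : ℝ) * Nat.card H ≤ M ^ 7 * B.card := by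
      have h2 := fib mk' B (fs H) 0 (fun q hq => (hmk'0 q).2 ((mem_fs H q).1 hq))
      rw [card_fs] at h2
      have h3 : B + fs H ⊆ F + (B + B - B) := by
        intro z hz
        obtain ⟨b, hb, h, hh, rfl⟩ := Finset.mem_add.1 hz
        obtain ⟨x, hx, a, ha, a', ha', e⟩ := hcovH h ((mem_fs H h).1 hh)
        refine Finset.mem_add.2 ⟨x, hx, b + f a - f a', Finset.sub_mem_sub
          (Finset.add_mem_add hb (Finset.mem_image_of_mem _ ha))
          (Finset.mem_image_of_mem _ ha'), ?_⟩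
        rw [e]
        abel
      have h4 : ((B + fs H).card : ℝ) ≤ F.card * (B + B - B).card := by
        exact_mod_cast (Finset.card_le_card h3).trans Finset.card_add_le
      calc ((B.image mk').card : ℝ) * Nat.card H ≤ (B + fs H).card := by exact_mod_cast h2
        _ ≤ F.card * (B + B - B).card := h4
        _ ≤ M ^ 2 * (M ^ 5 * B.card) := by gcongr
        _ = M ^ 7 * B.card := by ring
    have h2 : (B'.card : ℝ) ≤ B₁.card * Nat.card H := by
      have h := card_le_fib mk' B' (fs H) (by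
        intro a _ b _ e
        rw [mem_fs, ← hmk'0, map_sub, e, sub_self])
      rw [card_fs] at h
      have h3 : (B'.image mk').card ≤ B₁.card := by
        refine Finset.card_le_card ?_
        intro z hz
        obtain ⟨b, hb, rfl⟩ := Finset.mem_image.1 hz
        obtain ⟨hb1, x, hx, h, hh, e⟩ := Finset.mem_filter.1 hb
        obtain ⟨a, ha, hab⟩ := Finset.mem_image.1 hb1
        rw [hB₁, Finset.mem_image]
        refine ⟨mk a, ?_, ?_⟩
        · rw [Finset.mem_filter]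
          refine ⟨Finset.mem_image_of_mem _ ha, x, hx, ?_⟩
          show f' (mk a) = f' (mk g + mk (ψ x))
          rw [← map_add, hff, hff, hab, e, map_add f, map_add mk', map_add mk',
            (hmk'0 h).2 ((mem_fs H h).1 hh), add_zero, ← map_add mk']
        · rw [hff, hab]
      exact_mod_cast h.trans (Nat.mul_le_mul_right _ h3)
    have h3 : ((B.image mk').card : ℝ) * Nat.card H ≤ (M ^ 8 * B₁.card) * Nat.card H := by
      calc ((B.image mk').card : ℝ) * Nat.card H ≤ M ^ 7 * B.card := h1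
        _ ≤ M ^ 7 * (M * B'.card) := by gcongr
        _ ≤ M ^ 7 * (M * (B₁.card * Nat.card H)) := by gcongr
        _ = (M ^ 8 * B₁.card) * Nat.card H := by ring
    exact (le_of_mul_le_mul_right h3 hHpos).trans
      (mul_le_mul_of_nonneg_right (hMM₁ 8 le_rfl) (Nat.cast_nonneg _))
  have hMle : M ≤ M₁ := by
    have := hMM₁ 1 (by norm_num)
    rwa [pow_one] at this
  -- the core theorem
  obtain ⟨V', g₁, hV'fin, hV'size, hV'meet⟩ := core hT f' hf'0 hΞ hA₁ne hdoub hX
    (hXX.trans (mul_le_mul_of_nonneg_right hMle (Nat.cast_nonneg _))) (mk.comp ψ) (mk g)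
    hsize₁ hmeet₁
  rw [← hℓ] at hV'meet
  obtain ⟨c, hc⟩ : ∃ c : ℝ, c = M₁ ^ (12 * ℓ + 17) * (2 * M₁ ^ 5) ^ (2 * E) := ⟨_, rfl⟩
  rw [← hc] at hV'meet
  have hc1 : 1 ≤ c := by
    rw [hc]
    exact one_le_mul_of_one_le_of_one_le (one_le_pow₀ hM₁1)
      (one_le_pow₀ (by nlinarith [one_le_pow₀ hM₁1 (n := 5)]))
  obtain ⟨g₂, rfl⟩ := hmksurj g₁
  have hfinal : M₁ ^ (12 * ℓ + 18) * (2 * M₁ ^ 5) ^ (2 * E) = M₁ * c := by
    rw [hc, pow_succ M₁ (12 * ℓ + 17)]
    ring
  rw [hfinal]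
  -- the preimage
  set V : AddSubgroup Γ := V'.comap mk with hV
  choose r₂ hr₂ using hmksurj
  have hVsub : (V : Set Γ) ⊆ (((fs V').image r₂ + fs H₁ : Finset Γ) : Set Γ) := by
    intro v hv
    rw [Finset.mem_coe]
    refine Finset.mem_add.2 ⟨r₂ (mk v), Finset.mem_image_of_mem _ ((mem_fs V' _).2 hv),
      v - r₂ (mk v), ?_, by abel⟩
    rw [mem_fs, ← hmk0, map_sub, hr₂, sub_self]
  have hVfin : Finite V := (Finset.finite_toSet _).subset hVsub
  have hVcard : (Nat.card V : ℝ) ≤ Nat.card V' * Nat.card H₁ := by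
    have h1 : Nat.card V ≤ ((fs V').image r₂ + fs H₁).card := by
      have h2 := Set.ncard_le_ncard hVsub (Finset.finite_toSet _)
      rw [Set.ncard_coe_finset, ← Nat.card_coe_set_eq] at h2
      exact h2
    have h2 : ((fs V').image r₂ + fs H₁).card ≤ Nat.card V' * Nat.card H₁ := by
      rw [← card_fs V', ← card_fs H₁]
      exact Finset.card_add_le.trans (Nat.mul_le_mul_right _ Finset.card_image_le)
    exact_mod_cast h1.trans h2
  -- the large part of `A + H₁`
  set A' := A.filter (fun a => ∃ x ∈ X, ∃ v ∈ fs V', mk a = mk g₂ + (-(m • mk (ψ x))) + v)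
    with hA'
  have hU₁ : ({a : Γ ⧸ H₁ | a ∈ A₁ ∧ ∃ x ∈ X, ∃ v ∈ V', a = mk g₂ + (-(m • (mk.comp ψ) x)) + v}.ncard
      : ℝ) ≤ (A'.image mk).card := by
    have h1 : {a : Γ ⧸ H₁ | a ∈ A₁ ∧ ∃ x ∈ X, ∃ v ∈ V',
        a = mk g₂ + (-(m • (mk.comp ψ) x)) + v} ⊆ (A'.image mk : Finset (Γ ⧸ H₁)) := by
      rintro z ⟨hz, x, hx, v, hv, e⟩
      obtain ⟨a, ha, rfl⟩ := Finset.mem_image.1 hz
      rw [Finset.mem_coe]
      exact Finset.mem_image_of_mem _ (Finset.mem_filter.2 ⟨ha, x, hx, v, (mem_fs V' v).2 hv, e⟩)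
    have h2 := Set.ncard_le_ncard h1 (Finset.finite_toSet _)
    rw [Set.ncard_coe_finset] at h2
    exact_mod_cast h2
  set U := A' + fs H₁ with hU
  have hUc : ((A'.image mk).card : ℝ) * Nat.card H₁ ≤ U.card := by
    have h1 := fib mk A' (fs H₁) 0 (fun q hq => (hmk0 q).2 ((mem_fs H₁ q).1 hq))
    rw [card_fs] at h1
    exact_mod_cast h1
  have hAU : (A.card : ℝ) ≤ c * U.card := by
    calc (A.card : ℝ) ≤ A₁.card * Nat.card H₁ := hAA₁
      _ ≤ (c * (A'.image mk).card) * Nat.card H₁ := by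
        refine mul_le_mul_of_nonneg_right (hV'meet.trans ?_) hH₁pos.le
        exact mul_le_mul_of_nonneg_left hU₁ (by linarith)
      _ = c * ((A'.image mk).card * Nat.card H₁) := by ring
      _ ≤ c * U.card := mul_le_mul_of_nonneg_left hUc (by linarith)
  have hUne : U.Nonempty := by
    rw [← Finset.card_pos]
    by_contra hcon
    have h0 : U.card = 0 := by omega
    rw [h0, Nat.cast_zero, mul_zero] at hAU
    linarith
  obtain ⟨s, hs⟩ := pop hA hUne.neg
  rw [Finset.card_neg] at hs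
  set N := (A.filter fun a => s - a ∈ -U).card with hN
  have hAU2 : ((A + -U).card : ℝ) ≤ M₁ * A.card := by
    have h1 : A + -U ⊆ (A - A) + fs H₁ := by
      intro z hz
      obtain ⟨a, ha, u, hu, rfl⟩ := Finset.mem_add.1 hz
      rw [Finset.mem_neg] at hu
      obtain ⟨u', hu', rfl⟩ := hu
      obtain ⟨a', ha', h, hh, rfl⟩ := Finset.mem_add.1 hu'
      refine Finset.mem_add.2 ⟨a - a', Finset.sub_mem_sub ha (Finset.mem_filter.1 ha').1, -h, ?_,
        by abel⟩
      rw [mem_fs]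
      exact H₁.neg_mem ((mem_fs H₁ h).1 hh)
    have h2 := hsumH₁ (A - A) 1 1 (by rw [one_nsmul])
    have h3 : ((A + -U).card : ℝ) ≤ ((A - A) + fs H₁).card := by
      exact_mod_cast Finset.card_le_card h1
    calc ((A + -U).card : ℝ) ≤ M ^ (12 * ℓ + 2) * (M ^ (1 + 1 + 4) * A.card) := h3.trans h2
      _ = M₁ * A.card := by
        rw [hM₁, pow_add M (12 * ℓ) 8, pow_add M (12 * ℓ) 2]
        ring
  have hUN : (U.card : ℝ) ≤ M₁ * N := by
    have h1 : (A.card : ℝ) * U.card ≤ (A + -U).card * N := by exact_mod_cast hs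
    have h2 : (A.card : ℝ) * U.card ≤ A.card * (M₁ * N) := by
      calc (A.card : ℝ) * U.card ≤ (A + -U).card * N := h1
        _ ≤ (M₁ * A.card) * N := by gcongr
        _ = A.card * (M₁ * N) := by ring
    exact le_of_mul_le_mul_left h2 hA0
  refine ⟨V, s + g₂, hVfin, ?_, ?_⟩
  · -- the size
    have h1 : (A₁.card : ℝ) * Nat.card H₁ ≤ M₁ * A.card := by
      have h2 := fib mk A (fs H₁) 0 (fun q hq => (hmk0 q).2 ((mem_fs H₁ q).1 hq))
      rw [card_fs] at h2
      have h3 := hsumH₁ A 1 0 (by rw [one_nsmul, zero_nsmul, sub_zero])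
      have h4 : M ^ (12 * ℓ + 2) * (M ^ (1 + 0 + 4) * (A.card : ℝ)) ≤ M₁ * A.card := by
        rw [← mul_assoc, ← pow_add, hM₁]
        exact mul_le_mul_of_nonneg_right (pow_le_pow_right₀ hM1 (by omega)) (Nat.cast_nonneg _)
      exact ((by exact_mod_cast h2 : (A₁.card : ℝ) * Nat.card H₁ ≤ (A + fs H₁).card).trans h3).trans
        h4
    have h5 : M₁ ^ 4 ≤ c := by
      rw [hc]
      calc M₁ ^ 4 = M₁ ^ 4 * 1 := (mul_one _).symm
        _ ≤ M₁ ^ (12 * ℓ + 17) * (2 * M₁ ^ 5) ^ (2 * E) := by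
          refine mul_le_mul (pow_le_pow_right₀ hM₁1 (by omega))
            (one_le_pow₀ (by nlinarith [one_le_pow₀ hM₁1 (n := 5)])) (by norm_num) (by positivity)
    calc (X.card : ℝ) * Nat.card V ≤ X.card * (Nat.card V' * Nat.card H₁) := by gcongr
      _ = (X.card * Nat.card V') * Nat.card H₁ := by ring
      _ ≤ (M₁ ^ 4 * A₁.card) * Nat.card H₁ := by gcongr
      _ = M₁ ^ 4 * (A₁.card * Nat.card H₁) := by ring
      _ ≤ c * (M₁ * A.card) := mul_le_mul h5 h1 (by positivity) (by linarith)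
      _ = M₁ * c * A.card := by ring
  · have h1 : N ≤ {a : Γ | a ∈ A ∧ ∃ x ∈ X, ∃ v ∈ V, a = s + g₂ + -(m • ψ x) + v}.ncard := by
      rw [hN, ← Set.ncard_coe_finset]
      refine Set.ncard_le_ncard ?_ (A.finite_toSet.subset fun a ha => ha.1)
      intro a ha
      rw [Finset.mem_coe, Finset.mem_filter] at ha
      refine ⟨ha.1, ?_⟩
      obtain ⟨u, hu, e⟩ := Finset.mem_neg.1 ha.2
      obtain ⟨a', ha', h, hh, rfl⟩ := Finset.mem_add.1 hu
      obtain ⟨-, x, hx, v, hv, e'⟩ := Finset.mem_filter.1 ha'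
      have hea : a = s + (a' + h) := by
        have : s - a = -(a' + h) := e.symm
        have h2 : a = s - -(a' + h) := by rw [← this]; abel
        rw [h2]
        abel
      refine ⟨x, hx, a - (s + g₂ + -(m • ψ x)), ?_, by abel⟩
      show mk (a - (s + g₂ + -(m • ψ x))) ∈ V'
      have h3 : mk (a - (s + g₂ + -(m • ψ x))) = v := by
        rw [hea, map_sub, map_add, map_add, map_add, map_add, map_neg, map_nsmul, e',
          (hmk0 h).2 ((mem_fs H₁ h).1 hh)]
        abel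
      rw [h3]
      exact (mem_fs V' v).1 hv
    have h2 : (N : ℝ) ≤
        ({a : Γ | a ∈ A ∧ ∃ x ∈ X, ∃ v ∈ V, a = s + g₂ + -(m • ψ x) + v}.ncard : ℝ) := by
      exact_mod_cast h1
    calc (A.card : ℝ) ≤ c * U.card := hAU
      _ ≤ c * (M₁ * N) := mul_le_mul_of_nonneg_left hUN (by linarith)
      _ = M₁ * c * N := by ring
      _ ≤ _ := mul_le_mul_of_nonneg_left h2 (by positivity)

end Pool.Agent.R424.EX
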